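import Mathlib
import Pool.Agent.H33.Spl7

namespace Pool.Agent.Results.MP_aa78bc_gt.DenseMetr

open Pool.Agent.H33 Pool.Agent.H33.SplDefs

/-- Compacta splittable over Gul'ko compacta have dense metrizable subspaces. -/
theorem result (X : Type) [TopologicalSpace X] [CompactSpace X] [T2Space X]
    (hX : SplitsOverGulko X) :
    ∃ D : Set X, Dense D ∧ TopologicalSpace.MetrizableSpace D :=
  Spl7.gu_dense (Spl6.gu_of_splits hX)

end Pool.Agent.Results.MP_aa78bc_gt.DenseMetr
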